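import Pool.Agent.Work.MP_ebd05c_an.D.Pert
import Pool.Agent.Work.MP_ebd05c_an.D.RS
import Pool.Agent.Work.MP_ebd05c_an.Nagy

set_option autoImplicit false

open scoped BigOperators ENNReal Topology
open Finset Filter Polynomial

namespace Pool.Agent.Results.MP_ebd05c_an.Dichotomy

open Pool.Agent.Work.MP_ebd05c_an

section defs
variable {H : Type*} [NormedAddCommGroup H] [InnerProductSpace ℂ H]

/-- class `C_11`, as in the problem -/
def IsC11 [CompleteSpace H] (T : H →L[ℂ] H) : Prop :=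
  ∀ h : H, h ≠ 0 → ¬ Tendsto (fun n : ℕ => ‖(T ^ n) h‖) atTop (𝓝 0) ∧
    ¬ Tendsto (fun n : ℕ => ‖((ContinuousLinearMap.adjoint T) ^ n) h‖) atTop (𝓝 0)

/-- polynomially bounded operators -/
def PolyBounded (T : H →L[ℂ] H) : Prop :=
  ∃ C : ℝ, ∀ p : ℂ[X], (∀ z : ℂ, ‖z‖ ≤ 1 → ‖p.eval z‖ ≤ 1) → ‖aeval T p‖ ≤ C

/-- similarity to a contraction -/
def SimilarToContraction (T : H →L[ℂ] H) : Prop :=
  ∃ S : H ≃L[ℂ] H, ‖(S : H →L[ℂ] H).comp (T.comp (S.symm : H →L[ℂ] H))‖ ≤ 1

/-- similarity to a unitary operator -/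
def SimilarToUnitary [CompleteSpace H] (T : H →L[ℂ] H) : Prop :=
  ∃ S : H ≃L[ℂ] H, (S : H →L[ℂ] H).comp (T.comp (S.symm : H →L[ℂ] H)) ∈ unitary (H →L[ℂ] H)

/-- Operators of class `C_11` with `‖T ^ n‖ ≤ 1 + ε` for all `n`, and with
`‖T ^ n x‖ ≥ c n ‖x‖` for all `x` and all large `n`. -/
structure Cls [CompleteSpace H] (ε : ℝ) (c : ℕ → ℝ) (T : H →L[ℂ] H) : Prop where
  c11 : IsC11 T
  pow_le : ∀ n : ℕ, ‖T ^ n‖ ≤ 1 + ε
  low : ∀ᶠ n in atTop, ∀ x : H, c n * ‖x‖ ≤ ‖(T ^ n) x‖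

/-- Members of the class `Cls` on a separable space which are unitary plus compact of norm at
most `ε`, have spectrum in the unit circle and satisfy a lower estimate for all `n`. -/
structure Special [CompleteSpace H] (ε : ℝ) (c : ℕ → ℝ) (T : H →L[ℂ] H) : Prop where
  cls : Cls ε c T
  sep : TopologicalSpace.SeparableSpace H
  pert : ∃ U K : H →L[ℂ] H, T = U + K ∧ U ∈ unitary (H →L[ℂ] H) ∧ IsCompactOperator K ∧ ‖K‖ ≤ ε
  spec : spectrum ℂ T ⊆ Metric.sphere 0 1
  low_all : ∀ (n : ℕ) (x : H), min (1 / (1 + ε)) (c n) * ‖x‖ ≤ ‖(T ^ n) x‖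

end defs

/-- the sequence has positive upper limit -/
def LimsupPos (c : ℕ → ℝ) : Prop := ∃ δ : ℝ, 0 < δ ∧ ∃ᶠ n in atTop, δ ≤ c n

lemma conj_aeval {H : Type*} [NormedAddCommGroup H] [InnerProductSpace ℂ H]
    (T : H →L[ℂ] H) (S : H ≃L[ℂ] H) (p : ℂ[X]) :
    aeval ((S : H →L[ℂ] H).comp (T.comp (S.symm : H →L[ℂ] H))) p =
      (S : H →L[ℂ] H).comp ((aeval T p).comp (S.symm : H →L[ℂ] H)) := by
  have hpow : ∀ n : ℕ, ((S : H →L[ℂ] H).comp (T.comp (S.symm : H →L[ℂ] H))) ^ n =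
      (S : H →L[ℂ] H).comp ((T ^ n).comp (S.symm : H →L[ℂ] H)) := by
    intro n
    induction n with
    | zero =>
      ext1 x
      simp
    | succ n ih =>
      rw [pow_succ, ih, pow_succ]
      ext1 x
      simp [mul_apply_eq_comp]
  induction p using Polynomial.induction_on' with
  | add p q hp hq =>
    rw [map_add, map_add, hp, hq]
    ext1 x
    simp
  | monomial n a =>
    rw [aeval_monomial, aeval_monomial, hpow, Algebra.algebraMap_eq_smul_one,
      smul_mul_assoc, one_mul, smul_mul_assoc, one_mul]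
    ext1 x
    simp

lemma separable_HH : TopologicalSpace.SeparableSpace HH := by
  have b : HilbertBasis Idx ℂ HH := ⟨LinearIsometryEquiv.refl ℂ HH⟩
  have h1 : TopologicalSpace.IsSeparable (Set.range b) := (Set.countable_range b).isSeparable
  have h2 := (h1.span (R := ℂ)).closure
  have h3 : closure ((Submodule.span ℂ (Set.range b) : Submodule ℂ HH) : Set HH) = Set.univ := by
    have := b.dense_span
    rw [← Submodule.topologicalClosure_coe, this]
    rfl
  rw [h3] at h2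
  exact TopologicalSpace.isSeparable_univ_iff.1 h2

/-- the positive part -/
theorem positive {H : Type*} [NormedAddCommGroup H] [InnerProductSpace ℂ H] [CompleteSpace H]
    (T : H →L[ℂ] H) (c : ℕ → ℝ) (hc : LimsupPos c) (M : ℝ) (hM : ∀ n : ℕ, ‖T ^ n‖ ≤ M)
    (hC : IsC11 T) (hlow : ∀ᶠ n in atTop, ∀ x : H, c n * ‖x‖ ≤ ‖(T ^ n) x‖) :
    SimilarToUnitary T := by
  obtain ⟨δ, hδ, hfr⟩ := hc
  have hM1 : 0 < max M 1 := lt_max_of_lt_right one_pos
  -- uniform lower bounds
  have hlow' : ∀ n : ℕ, ∀ x : H, δ / max M 1 * ‖x‖ ≤ ‖(T ^ n) x‖ := by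
    intro n x
    obtain ⟨m, hm1, hm2, hm3⟩ := (hfr.and_eventually (hlow.and (eventually_ge_atTop n))).exists
    have h1 : T ^ m = T ^ (m - n) * T ^ n := by
      rw [← pow_add]
      congr 1
      omega
    have h2 : ‖(T ^ m) x‖ ≤ max M 1 * ‖(T ^ n) x‖ := by
      rw [h1]
      exact ((T ^ (m - n)).le_opNorm _).trans
        (mul_le_mul_of_nonneg_right ((hM _).trans (le_max_left _ _)) (norm_nonneg _))
    have h3 : δ * ‖x‖ ≤ ‖(T ^ m) x‖ :=
      (mul_le_mul_of_nonneg_right hm1 (norm_nonneg _)).trans (hm2 x)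
    rw [div_mul_eq_mul_div, div_le_iff₀ hM1]
    linarith
  have hδ' : 0 < δ / max M 1 := by positivity
  -- surjectivity
  have hanti : AntilipschitzWith ⟨(δ / max M 1)⁻¹, by positivity⟩ T := by
    apply AddMonoidHomClass.antilipschitz_of_bound
    intro x
    have := hlow' 1 x
    rw [pow_one] at this
    show ‖x‖ ≤ (δ / max M 1)⁻¹ * ‖T x‖
    rw [← div_eq_inv_mul, le_div_iff₀ hδ']
    linarith
  have hclosed : IsClosed (Set.range T) := hanti.isClosed_range T.uniformContinuous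
  have hsurj : Function.Surjective T := by
    have h1 : (LinearMap.range T.toLinearMap)ᗮ = ⊥ := by
      rw [Submodule.eq_bot_iff]
      intro y hy
      by_contra hne
      apply (hC y hne).2
      have h2 : ContinuousLinearMap.adjoint T y = 0 := by
        apply ext_inner_right ℂ
        intro z
        rw [ContinuousLinearMap.adjoint_inner_left, inner_zero_left]
        rw [Submodule.mem_orthogonal'] at hy
        exact hy (T z) ⟨z, rfl⟩
      have h3 : ∀ n : ℕ, 1 ≤ n → ‖((ContinuousLinearMap.adjoint T) ^ n) y‖ = 0 := by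
        intro n hn
        obtain ⟨m, rfl⟩ := Nat.exists_eq_add_of_le hn
        rw [add_comm, pow_succ, mul_apply_eq_comp, h2, map_zero, norm_zero]
      exact tendsto_const_nhds.congr' (by
        filter_upwards [eventually_ge_atTop 1] with n hn
        exact (h3 n hn).symm)
    have h2 : (LinearMap.range T.toLinearMap : Submodule ℂ H) = ⊤ := by
      have h3 : (LinearMap.range T.toLinearMap).topologicalClosure = ⊤ :=
        Submodule.topologicalClosure_eq_top_iff.2 h1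
      have h4 : IsClosed ((LinearMap.range T.toLinearMap : Submodule ℂ H) : Set H) := by
        have : ((LinearMap.range T.toLinearMap : Submodule ℂ H) : Set H) = Set.range T := by
          ext y
          simp
        rw [this]
        exact hclosed
      rw [← h3, h4.submodule_topologicalClosure_eq]
    intro y
    have : y ∈ (LinearMap.range T.toLinearMap : Submodule ℂ H) := by rw [h2]; trivial
    obtain ⟨x, hx⟩ := this
    exact ⟨x, hx⟩
  obtain ⟨S, hS⟩ := nagy T M _ hM hδ' hlow'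
  refine ⟨S, D.mem_unitary_of _ ?_ ?_⟩
  · intro x
    show ‖S (T (S.symm x))‖ = ‖x‖
    rw [hS, S.apply_symm_apply]
  · intro y
    obtain ⟨x, hx⟩ := hsurj (S.symm y)
    refine ⟨S x, ?_⟩
    show S (T (S.symm (S x))) = y
    rw [S.symm_apply_apply, hx, S.apply_symm_apply]

lemma spectrum_subset {H : Type*} [NormedAddCommGroup H] [InnerProductSpace ℂ H]
    [CompleteSpace H] (T R : H →L[ℂ] H) (h1 : T * R = 1) (h2 : R * T = 1) (M C : ℝ)
    (hM : ∀ n : ℕ, ‖T ^ n‖ ≤ M) (hR : ∀ n : ℕ, ‖R ^ n‖ ≤ C * ((n : ℝ) + 1)) :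
    spectrum ℂ T ⊆ Metric.sphere 0 1 := by
  have key : ∀ (A : H →L[ℂ] H) (C : ℝ), (∀ n : ℕ, ‖A ^ n‖ ≤ C * ((n : ℝ) + 1)) →
      ∀ z ∈ spectrum ℂ A, ‖z‖ ≤ 1 := by
    intro A C hA z hz
    by_contra hc
    push Not at hc
    have hC0 : 0 ≤ C := by
      have := (norm_nonneg _).trans (hA 0)
      simpa using this
    have h3 : ∀ n : ℕ, ‖z‖ ^ n ≤ C * ((n : ℝ) + 1) := by
      intro n
      have h4 := spectrum.norm_le_norm_mul_of_mem (spectrum.pow_mem_pow A n hz)
      rw [norm_pow] at h4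
      have h5 : ‖(1 : H →L[ℂ] H)‖ ≤ 1 := ContinuousLinearMap.norm_id_le
      calc ‖z‖ ^ n ≤ ‖A ^ n‖ * ‖(1 : H →L[ℂ] H)‖ := h4
        _ ≤ ‖A ^ n‖ * 1 := by gcongr
        _ ≤ _ := by rw [mul_one]; exact hA n
    have h6 : Tendsto (fun n : ℕ => (n : ℝ) ^ 1 * (‖z‖⁻¹) ^ n) atTop (𝓝 0) :=
      tendsto_pow_const_mul_const_pow_of_abs_lt_one 1 (by
        rw [abs_of_nonneg (by positivity)]
        exact inv_lt_one_of_one_lt₀ hc)
    have h7 : Tendsto (fun n : ℕ => (‖z‖⁻¹) ^ n) atTop (𝓝 0) :=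
      tendsto_pow_atTop_nhds_zero_of_lt_one (by positivity) (inv_lt_one_of_one_lt₀ hc)
    have h8 : Tendsto (fun n : ℕ => C * ((n : ℝ) ^ 1 * (‖z‖⁻¹) ^ n + (‖z‖⁻¹) ^ n)) atTop
        (𝓝 (C * (0 + 0))) := (h6.add h7).const_mul C
    have h9 : ∀ n : ℕ, 1 ≤ C * ((n : ℝ) ^ 1 * (‖z‖⁻¹) ^ n + (‖z‖⁻¹) ^ n) := by
      intro n
      have h10 := h3 n
      have h11 : 0 < ‖z‖ ^ n := by positivity
      rw [inv_pow, pow_one]
      have h12 : C * ((n : ℝ) * (‖z‖ ^ n)⁻¹ + (‖z‖ ^ n)⁻¹) = C * ((n : ℝ) + 1) / ‖z‖ ^ n := by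
        field_simp
      rw [h12, le_div_iff₀ h11]
      linarith
    have h10 := ge_of_tendsto' h8 h9
    norm_num at h10
  intro z hz
  rw [mem_sphere_zero_iff_norm]
  apply le_antisymm
  · apply key T M _ z hz
    intro n
    have h3 : 0 ≤ M := (norm_nonneg _).trans (hM 0)
    have h4 : (0 : ℝ) ≤ n := by positivity
    nlinarith [hM n, mul_nonneg h3 h4]
  · let u : (H →L[ℂ] H)ˣ := ⟨T, R, h1, h2⟩
    have h3 : z⁻¹ ∈ spectrum ℂ R := by
      have h4 : z⁻¹⁻¹ ∈ spectrum ℂ (u : H →L[ℂ] H) := by rwa [inv_inv]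
      exact (spectrum.inv₀_mem_iff (a := u)).1 h4
    have h5 := key R C hR _ h3
    rw [norm_inv] at h5
    by_cases h6 : z = 0
    · exfalso
      rw [h6] at hz
      have h7 := spectrum.zero_notMem (R := ℂ) (a := T) u.isUnit
      exact h7 hz
    · have h7 : 0 < ‖z‖ := norm_pos_iff.2 h6
      rwa [inv_le_one₀ h7] at h5

/-- the negative part -/
theorem negative (ε : ℝ) (hε : 0 < ε) (c : ℕ → ℝ) (hc : ¬ LimsupPos c) :
    ∃ (H : Type) (_ : NormedAddCommGroup H) (_ : InnerProductSpace ℂ H) (_ : CompleteSpace H)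
      (T : H →L[ℂ] H), Special ε c T ∧ ¬ PolyBounded T ∧ ¬ SimilarToContraction T := by
  set δ : ℝ := min ε 1 with hδ
  have hδ0 : 0 < δ := lt_min hε one_pos
  have hδ1 : δ ≤ 1 := min_le_right _ _
  have hδε : δ ≤ ε := min_le_left _ _
  -- the growth function
  set b : ℕ → ℝ := fun n => max (c n) (1 / ((n : ℝ) + 1)) with hb
  have hb0 : ∀ n, 0 < b n := fun n => lt_max_of_lt_right (by positivity)
  have hbt : Tendsto b atTop (𝓝 0) := by
    have hc' : ∀ η : ℝ, 0 < η → ∀ᶠ n in atTop, c n < η := by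
      intro η hη
      by_contra hcon
      apply hc
      refine ⟨η, hη, ?_⟩
      rw [not_eventually] at hcon
      exact hcon.mono (fun n hn => not_lt.1 hn)
    rw [Metric.tendsto_atTop']
    intro η hη
    have h1 := (tendsto_one_div_add_atTop_nhds_zero_nat (𝕜 := ℝ)).eventually (gt_mem_nhds hη)
    obtain ⟨N, hN⟩ := eventually_atTop.1 ((hc' η hη).and h1)
    refine ⟨N, fun n hn => ?_⟩
    rw [Real.dist_eq, sub_zero, abs_of_pos (hb0 n)]
    exact max_lt (hN n hn.le).1 (hN n hn.le).2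
  have hω : Tendsto (fun n => 1 / b n) atTop atTop := by
    have h1 : Tendsto b atTop (𝓝[>] 0) :=
      tendsto_nhdsWithin_iff.2 ⟨hbt, Eventually.of_forall hb0⟩
    have h2 : Tendsto (fun n => (b n)⁻¹) atTop atTop := h1.inv_tendsto_nhdsGT_zero
    simpa [one_div] using h2
  have hωle : ∀ n, 1 / b n ≤ (n : ℝ) + 1 := by
    intro n
    rw [div_le_iff₀ (hb0 n)]
    have h1 : 1 / ((n : ℝ) + 1) ≤ b n := le_max_right _ _
    have h2 : (0 : ℝ) < (n : ℝ) + 1 := by positivity
    rw [div_le_iff₀ h2] at h1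
    linarith
  obtain ⟨V, hV, hVd, hg⟩ := D.exists_good hδ0 hδ1 _ hω
  -- the couplings
  set q : ℕ → ℝ := fun k => Real.sqrt (Real.sqrt ((k : ℝ) + 1)) with hq
  have hq1 : ∀ k, 1 ≤ q k := by
    intro k
    have h1 : (1 : ℝ) ≤ (k : ℝ) + 1 := by
      have : (0 : ℝ) ≤ k := by positivity
      linarith
    rw [hq]
    exact Real.one_le_sqrt.2 (Real.one_le_sqrt.2 h1)
  set e : ℕ → ℝ := fun k => δ / 8 / q k with he'
  have he : ∀ k, 0 < e k := fun k => by
    have := hq1 k
    have h2 : 0 < q k := by linarith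
    simp only [he']
    positivity
  have he0 : ∀ k, e k ≤ δ / 8 := fun k => div_le_self (by positivity) (hq1 k)
  have hqt : Tendsto q atTop atTop := by
    have h1 : Tendsto (fun k : ℕ => (k : ℝ) + 1) atTop atTop :=
      tendsto_atTop_add_const_right _ _ tendsto_natCast_atTop_atTop
    exact Real.tendsto_sqrt_atTop.comp (Real.tendsto_sqrt_atTop.comp h1)
  have het : Tendsto e atTop (𝓝 0) := hqt.const_div_atTop _
  have hlarge : ∀ C : ℝ, ∃ k : ℕ, C < e k * Real.sqrt ((k : ℝ) + 1) := by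
    intro C
    obtain ⟨k, hk⟩ := (hqt.eventually_gt_atTop (C / (δ / 8))).exists
    refine ⟨k, ?_⟩
    have h1 : e k * Real.sqrt ((k : ℝ) + 1) = δ / 8 * q k := by
      have h2 : q k * q k = Real.sqrt ((k : ℝ) + 1) := Real.mul_self_sqrt (Real.sqrt_nonneg _)
      have h3 : q k ≠ 0 := by linarith [hq1 k]
      rw [← h2]
      simp only [he']
      field_simp
    rw [h1]
    rw [div_lt_iff₀ (by positivity)] at hk
    linarith
  have hVd' : ∀ k : ℕ, 1 / (V k : ℝ) ≤ δ / 8 / ((k : ℝ) + 1) := by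
    intro k
    have h1 := hVd k
    have h2 : (0 : ℝ) < (k : ℝ) + 1 := by positivity
    have h3 : (0 : ℝ) < V k := by exact_mod_cast hV k
    rw [div_le_div_iff₀ h3 h2]
    have h4 : ((k : ℝ) + 1) * (8 / δ) * (δ / 8) = (k : ℝ) + 1 := by field_simp
    have h5 : 0 ≤ δ / 8 := by positivity
    nlinarith [mul_le_mul_of_nonneg_right h1 h5]
  obtain ⟨K, hK1, hK2, hK3⟩ := D.exists_pert V hV e he (δ / 8) he0 het (δ / 8) (by positivity) hVd'
  set T := D.TOp V hV e he (δ / 8) he0 with hT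
  set R := D.ROp V hV e he (δ / 8) he0 _ hg with hR
  have hTR : T * R = 1 := D.TOp_mul_ROp V hV e he (δ / 8) he0 _ hg
  have hRT : R * T = 1 := D.ROp_mul_TOp V hV e he (δ / 8) he0 _ hg
  have hTn : ∀ n : ℕ, ‖T ^ n‖ ≤ 1 + ε := fun n =>
    (D.TOp_pow_norm V hV e he (δ / 8) he0 n).trans (by linarith)
  have hRn : ∀ n : ℕ, ‖R ^ n‖ ≤ max (1 + δ) (1 / b n) := fun n =>
    D.ROp_pow_norm V hV e he (δ / 8) he0 _ hg n
  have hlow : ∀ (n : ℕ) (x : HH), min (1 / (1 + ε)) (b n) * ‖x‖ ≤ ‖(T ^ n) x‖ := by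
    intro n x
    have h2 : (R ^ n) ((T ^ n) x) = x := by
      have hcomm : Commute R T := by
        show _ * _ = _ * _
        rw [hTR, hRT]
      have h3 : R ^ n * T ^ n = 1 := by rw [← hcomm.mul_pow, hRT, one_pow]
      have h4 := congrArg (fun A : HH →L[ℂ] HH => A x) h3
      exact h4
    have h3 : ‖x‖ ≤ max (1 + δ) (1 / b n) * ‖(T ^ n) x‖ := by
      calc ‖x‖ = ‖(R ^ n) ((T ^ n) x)‖ := by rw [h2]
        _ ≤ ‖R ^ n‖ * ‖(T ^ n) x‖ := (R ^ n).le_opNorm _
        _ ≤ max (1 + δ) (1 / b n) * ‖(T ^ n) x‖ := by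
            gcongr
            exact hRn n
    have h5 : 0 ≤ min (1 / (1 + ε)) (b n) := le_min (by positivity) (hb0 n).le
    have h6 : min (1 / (1 + ε)) (b n) * max (1 + δ) (1 / b n) ≤ 1 := by
      rcases max_cases (1 + δ) (1 / b n) with ⟨h, _⟩ | ⟨h, _⟩
      · rw [h]
        calc min (1 / (1 + ε)) (b n) * (1 + δ) ≤ 1 / (1 + ε) * (1 + δ) := by
              gcongr
              exact min_le_left _ _
          _ ≤ 1 := by
              rw [div_mul_eq_mul_div, one_mul, div_le_one (by positivity)]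
              linarith
      · rw [h]
        have hb := hb0 n
        calc min (1 / (1 + ε)) (b n) * (1 / b n) ≤ b n * (1 / b n) := by
              gcongr
              exact min_le_right _ _
          _ = 1 := by field_simp
    calc min (1 / (1 + ε)) (b n) * ‖x‖ ≤
          min (1 / (1 + ε)) (b n) * (max (1 + δ) (1 / b n) * ‖(T ^ n) x‖) := by gcongr
      _ = (min (1 / (1 + ε)) (b n) * max (1 + δ) (1 / b n)) * ‖(T ^ n) x‖ := by ring
      _ ≤ 1 * ‖(T ^ n) x‖ := by gcongr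
      _ = _ := one_mul _
  refine ⟨HH, inferInstance, inferInstance, inferInstance, T, ⟨⟨?_, hTn, ?_⟩, separable_HH,
    ⟨D.UOp, K, hK1, D.UOp_unitary, hK2, hK3.trans (by linarith)⟩, ?_, ?_⟩, ?_, ?_⟩
  · intro x hx
    obtain ⟨c1, hc1, h1⟩ := D.TOp_C1 V hV e he (δ / 8) he0 x hx
    obtain ⟨c2, hc2, h2⟩ := D.TOp_C1_adj V hV e he (δ / 8) he0 x hx
    exact ⟨not_tendsto_of_lower hc1 h1, not_tendsto_of_lower hc2 h2⟩
  · have h1 : ∀ᶠ n in atTop, b n < 1 / (1 + ε) := hbt.eventually (gt_mem_nhds (by positivity))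
    filter_upwards [h1] with n hn x
    have h4 := hlow n x
    rw [min_eq_right hn.le] at h4
    exact (mul_le_mul_of_nonneg_right (le_max_left _ _) (norm_nonneg _)).trans h4
  · apply spectrum_subset T R hTR hRT (1 + ε) 2 hTn
    intro n
    refine (hRn n).trans (max_le ?_ ?_)
    · have : (0 : ℝ) ≤ n := by positivity
      linarith
    · have := hωle n
      have : (0 : ℝ) ≤ n := by positivity
      linarith
  · intro n x
    refine le_trans (mul_le_mul_of_nonneg_right ?_ (norm_nonneg _)) (hlow n x)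
    exact min_le_min le_rfl (le_max_left _ _)
  · rintro ⟨C, hC⟩
    obtain ⟨k, hk⟩ := hlarge (2 * C)
    have h3 := hC ((1 / 2 : ℂ) • PP V k) (by
      intro z hz
      rw [eval_smul, norm_smul]
      have h1 := PP_eval V k z hz
      norm_num
      linarith)
    rw [map_smul, norm_smul] at h3
    have h2 := D.PP_lower V hV e he (δ / 8) he0 k
    norm_num at h3
    linarith
  · rintro ⟨S, hcon⟩
    obtain ⟨k, hk⟩ := hlarge (‖(S.symm : HH →L[ℂ] HH)‖ * (2 * ‖(S : HH →L[ℂ] HH)‖))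
    have h1 := PP_contraction _ hcon V k
    have h2 := D.PP_lower V hV e he (δ / 8) he0 k
    rw [conj_aeval] at h1
    set B := aeval T (PP V k) with hB
    set G := (S : HH →L[ℂ] HH).comp (B.comp (S.symm : HH →L[ℂ] HH)) with hG
    have h3 : B = (S.symm : HH →L[ℂ] HH).comp (G.comp (S : HH →L[ℂ] HH)) := by
      ext1 x
      simp [hG]
    have h4 : ‖B‖ ≤ ‖(S.symm : HH →L[ℂ] HH)‖ * (2 * ‖(S : HH →L[ℂ] HH)‖) := by
      rw [h3]
      refine (ContinuousLinearMap.opNorm_comp_le _ _).trans ?_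
      apply mul_le_mul_of_nonneg_left _ (norm_nonneg _)
      refine (ContinuousLinearMap.opNorm_comp_le _ _).trans ?_
      exact mul_le_mul_of_nonneg_right h1 (norm_nonneg _)
    exact absurd (hk.trans_le h2) (not_lt.2 h4)

lemma SimilarToUnitary.contraction {H : Type*} [NormedAddCommGroup H] [InnerProductSpace ℂ H]
    [CompleteSpace H] {T : H →L[ℂ] H} (h : SimilarToUnitary T) : SimilarToContraction T := by
  obtain ⟨S, hS⟩ := h
  refine ⟨S, ?_⟩
  apply ContinuousLinearMap.opNorm_le_bound _ zero_le_one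
  intro x
  have h1 := (ContinuousLinearMap.norm_map_iff_adjoint_comp_self
    ((S : H →L[ℂ] H).comp (T.comp (S.symm : H →L[ℂ] H)))).2 (Unitary.mem_iff.1 hS).1 x
  rw [h1, one_mul]

lemma unitary_poly {H : Type*} [NormedAddCommGroup H] [InnerProductSpace ℂ H]
    [CompleteSpace H] {U : H →L[ℂ] H} (hU : U ∈ unitary (H →L[ℂ] H)) (p : ℂ[X])
    (hp : ∀ z : ℂ, ‖z‖ ≤ 1 → ‖p.eval z‖ ≤ 1) : ‖aeval U p‖ ≤ 1 := by
  have hn : IsStarNormal U := by
    rw [isStarNormal_iff]
    show _ * _ = _ * _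
    rw [(Unitary.mem_iff.1 hU).1, (Unitary.mem_iff.1 hU).2]
  rw [← cfc_polynomial p U]
  apply norm_cfc_le zero_le_one
  intro z hz
  apply hp
  have h1 := spectrum.subset_circle_of_unitary hU hz
  rw [mem_sphere_zero_iff_norm] at h1
  exact h1.le

lemma SimilarToUnitary.poly {H : Type*} [NormedAddCommGroup H] [InnerProductSpace ℂ H]
    [CompleteSpace H] {T : H →L[ℂ] H} (h : SimilarToUnitary T) : PolyBounded T := by
  obtain ⟨S, hS⟩ := h
  refine ⟨‖(S.symm : H →L[ℂ] H)‖ * (1 * ‖(S : H →L[ℂ] H)‖), fun p hp => ?_⟩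
  have h1 := unitary_poly hS p hp
  rw [conj_aeval] at h1
  set B := aeval T p with hB
  set G := (S : H →L[ℂ] H).comp (B.comp (S.symm : H →L[ℂ] H)) with hG
  have h3 : B = (S.symm : H →L[ℂ] H).comp (G.comp (S : H →L[ℂ] H)) := by
    ext1 x
    simp [hG]
  rw [h3]
  refine (ContinuousLinearMap.opNorm_comp_le _ _).trans ?_
  apply mul_le_mul_of_nonneg_left _ (norm_nonneg _)
  refine (ContinuousLinearMap.opNorm_comp_le _ _).trans ?_
  exact mul_le_mul_of_nonneg_right h1 (norm_nonneg _)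

/-- **Dichotomy** for the question whether power bounded operators of class `C_11` are similar to
contractions, under a lower growth condition on the orbits: the answer is yes if `limsup c > 0`
and no if `limsup c ≤ 0`, and then not even for small compact perturbations of unitary operators
with spectrum in the unit circle. -/
theorem result (ε : ℝ) (hε : 0 < ε) (c : ℕ → ℝ) : List.TFAE [
    LimsupPos c,
    ∀ (H : Type) [NormedAddCommGroup H] [InnerProductSpace ℂ H] [CompleteSpace H]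
      (T : H →L[ℂ] H), Cls ε c T → SimilarToUnitary T,
    ∀ (H : Type) [NormedAddCommGroup H] [InnerProductSpace ℂ H] [CompleteSpace H]
      (T : H →L[ℂ] H), Special ε c T → SimilarToContraction T,
    ∀ (H : Type) [NormedAddCommGroup H] [InnerProductSpace ℂ H] [CompleteSpace H]
      (T : H →L[ℂ] H), Special ε c T → PolyBounded T] := by
  tfae_have 1 → 2 := fun hc H _ _ _ T hT => positive T c hc (1 + ε) hT.pow_le hT.c11 hT.low
  tfae_have 2 → 3 := fun h H _ _ _ T hT => (h H T hT.cls).contraction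
  tfae_have 2 → 4 := fun h H _ _ _ T hT => (h H T hT.cls).poly
  tfae_have 3 → 1 := by
    intro h
    by_contra hc
    obtain ⟨H, i1, i2, i3, T, h1, _, h3⟩ := negative ε hε c hc
    exact h3 (h H T h1)
  tfae_have 4 → 1 := by
    intro h
    by_contra hc
    obtain ⟨H, i1, i2, i3, T, h1, h2, _⟩ := negative ε hε c hc
    exact h2 (h H T h1)
  tfae_finish

end Pool.Agent.Results.MP_ebd05c_an.Dichotomy
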