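import Pool.Agent.Work.MP_ebd05c_an.H.Neg

set_option autoImplicit false

open scoped BigOperators ENNReal Topology
open Finset Filter Polynomial

namespace Pool.Agent.Results.MP_ebd05c_an.PolynomialDichotomy

section defs
variable {H : Type*} [NormedAddCommGroup H] [InnerProductSpace ℂ H]

/-- class `C_11`, as in the problem -/
def IsC11 [CompleteSpace H] (T : H →L[ℂ] H) : Prop :=
  ∀ h : H, h ≠ 0 → ¬ Tendsto (fun n : ℕ => ‖(T ^ n) h‖) atTop (𝓝 0) ∧
    ¬ Tendsto (fun n : ℕ => ‖((ContinuousLinearMap.adjoint T) ^ n) h‖) atTop (𝓝 0)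

/-- similarity to a contraction -/
def SimilarToContraction (T : H →L[ℂ] H) : Prop :=
  ∃ S : H ≃L[ℂ] H, ‖(S : H →L[ℂ] H).comp (T.comp (S.symm : H →L[ℂ] H))‖ ≤ 1

/-- similarity to a unitary operator -/
def SimilarToUnitary [CompleteSpace H] (T : H →L[ℂ] H) : Prop :=
  ∃ S : H ≃L[ℂ] H, (S : H →L[ℂ] H).comp (T.comp (S.symm : H →L[ℂ] H)) ∈ unitary (H →L[ℂ] H)

/-- Operators of class `C_11` with `‖T ^ n‖ ≤ 1 + ε` for all `n`, and with
`‖T ^ n x‖ ≥ c n ‖x‖` for all `x` and all large `n`. -/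
structure Cls [CompleteSpace H] (ε : ℝ) (c : ℕ → ℝ) (T : H →L[ℂ] H) : Prop where
  c11 : IsC11 T
  pow_le : ∀ n : ℕ, ‖T ^ n‖ ≤ 1 + ε
  low : ∀ᶠ n in atTop, ∀ x : H, c n * ‖x‖ ≤ ‖(T ^ n) x‖

/-- Members of the class `Cls` on a separable space which are polynomially bounded with constant
`1 + ε`, unitary plus compact of norm at most `ε`, have spectrum in the unit circle and satisfy
a lower estimate for all `n`. -/
structure Special [CompleteSpace H] (ε : ℝ) (c : ℕ → ℝ) (T : H →L[ℂ] H) : Prop where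
  cls : Cls ε c T
  poly : ∀ p : ℂ[X], (∀ z : ℂ, ‖z‖ ≤ 1 → ‖p.eval z‖ ≤ 1) → ‖aeval T p‖ ≤ 1 + ε
  sep : TopologicalSpace.SeparableSpace H
  pert : ∃ U K : H →L[ℂ] H, T = U + K ∧ U ∈ unitary (H →L[ℂ] H) ∧ IsCompactOperator K ∧ ‖K‖ ≤ ε
  spec : spectrum ℂ T ⊆ Metric.sphere 0 1
  low_all : ∀ (n : ℕ) (x : H), min (1 / (1 + ε)) (c n) * ‖x‖ ≤ ‖(T ^ n) x‖

end defs

/-- the sequence has positive upper limit -/
def LimsupPos (c : ℕ → ℝ) : Prop := ∃ δ : ℝ, 0 < δ ∧ ∃ᶠ n in atTop, δ ≤ c n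

/-- **Polynomial dichotomy.** Under a lower growth condition on the orbits the question whether
operators of class `C_11` are similar to contractions has a positive answer if `limsup c > 0`,
and a negative answer if `limsup c ≤ 0`, and then even for polynomially bounded operators with
constant `1 + ε` which are small compact perturbations of unitary operators. -/
theorem result (ε : ℝ) (hε : 0 < ε) (c : ℕ → ℝ) : List.TFAE [
    LimsupPos c,
    ∀ (H : Type) [NormedAddCommGroup H] [InnerProductSpace ℂ H] [CompleteSpace H]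
      (T : H →L[ℂ] H), Cls ε c T → SimilarToUnitary T,
    ∀ (H : Type) [NormedAddCommGroup H] [InnerProductSpace ℂ H] [CompleteSpace H]
      (T : H →L[ℂ] H), Special ε c T → SimilarToContraction T] := by
  tfae_have 1 → 2 := fun hc H _ _ _ T hT =>
    Pool.Agent.Work.MP_ebd05c_an.H.positive T c hc (1 + ε) hT.pow_le hT.c11 hT.low
  tfae_have 2 → 3 := fun h H _ _ _ T hT =>
    Pool.Agent.Work.MP_ebd05c_an.H.SimilarToUnitary.contraction (h H T hT.cls)
  tfae_have 3 → 1 := by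
    intro h
    by_contra hc
    obtain ⟨H, i1, i2, i3, T, h1, h2⟩ := Pool.Agent.Work.MP_ebd05c_an.H.negative ε hε c hc
    exact h2 (h H T ⟨⟨h1.cls.c11, h1.cls.pow_le, h1.cls.low⟩, h1.poly, h1.sep, h1.pert, h1.spec,
      h1.low_all⟩)
  tfae_finish

end Pool.Agent.Results.MP_ebd05c_an.PolynomialDichotomy
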