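import Pool.Agent.Work.MP_ebd05c_an.SG.Fin

set_option autoImplicit false

open scoped BigOperators ENNReal Topology InnerProductSpace
open Finset Filter MeasureTheory

namespace Pool.Agent.Results.MP_ebd05c_an.SingularDichotomy

section defs
variable {H : Type*} [NormedAddCommGroup H] [InnerProductSpace ℂ H]

/-- class `C_11`, as in the problem -/
def IsC11 [CompleteSpace H] (T : H →L[ℂ] H) : Prop :=
  ∀ h : H, h ≠ 0 → ¬ Tendsto (fun n : ℕ => ‖(T ^ n) h‖) atTop (𝓝 0) ∧
    ¬ Tendsto (fun n : ℕ => ‖((ContinuousLinearMap.adjoint T) ^ n) h‖) atTop (𝓝 0)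

/-- similarity to a contraction -/
def SimilarToContraction (T : H →L[ℂ] H) : Prop :=
  ∃ S : H ≃L[ℂ] H, ‖(S : H →L[ℂ] H).comp (T.comp (S.symm : H →L[ℂ] H))‖ ≤ 1

/-- similarity to a unitary operator -/
def SimilarToUnitary [CompleteSpace H] (T : H →L[ℂ] H) : Prop :=
  ∃ S : H ≃L[ℂ] H, (S : H →L[ℂ] H).comp (T.comp (S.symm : H →L[ℂ] H)) ∈ unitary (H →L[ℂ] H)

/-- quasi-similarity -/
def QuasiSimilar (T W : H →L[ℂ] H) : Prop :=
  (∃ X : H →L[ℂ] H, Function.Injective X ∧ DenseRange X ∧ X * T = W * X) ∧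
    ∃ Y : H →L[ℂ] H, Function.Injective Y ∧ DenseRange Y ∧ Y * W = T * Y

/-- A unitary operator is singular if for each vector `x` the measure `μ` on the circle group
`ℝ / ℤ` with `⟪x, W ^ n x⟫ = ∫ exp (2 π i n t) dμ(t)` for all `n ≥ 0` (the spectral measure of `x`)
is singular with respect to Lebesgue (Haar) measure. -/
def SingularUnitary [CompleteSpace H] (W : H →L[ℂ] H) : Prop :=
  W ∈ unitary (H →L[ℂ] H) ∧ ∀ x : H, ∃ μ : Measure UnitAddCircle, IsFiniteMeasure μ ∧
    μ ⟂ₘ AddCircle.haarAddCircle ∧ ∀ n : ℕ, ⟪x, (W ^ n) x⟫_ℂ = ∫ t, fourier (n : ℤ) t ∂μ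

/-- Operators of class `C_11` with `‖T ^ n‖ ≤ 1 + ε` for all `n`, and with
`‖T ^ n x‖ ≥ c n ‖x‖` for all `x` and all large `n`. -/
structure Cls [CompleteSpace H] (ε : ℝ) (c : ℕ → ℝ) (T : H →L[ℂ] H) : Prop where
  c11 : IsC11 T
  pow_le : ∀ n : ℕ, ‖T ^ n‖ ≤ 1 + ε
  low : ∀ᶠ n in atTop, ∀ x : H, c n * ‖x‖ ≤ ‖(T ^ n) x‖

/-- Members of the class `Cls` on a separable space which are quasi-similar to a singular unitary
operator, are unitary plus compact of norm at most `ε`, have spectrum in the unit circle and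
satisfy a lower estimate for all `n`. -/
structure Sing [CompleteSpace H] (ε : ℝ) (c : ℕ → ℝ) (T : H →L[ℂ] H) : Prop where
  cls : Cls ε c T
  asymptote : ∃ W : H →L[ℂ] H, SingularUnitary W ∧ QuasiSimilar T W
  sep : TopologicalSpace.SeparableSpace H
  pert : ∃ U K : H →L[ℂ] H, T = U + K ∧ U ∈ unitary (H →L[ℂ] H) ∧ IsCompactOperator K ∧ ‖K‖ ≤ ε
  spec : spectrum ℂ T ⊆ Metric.sphere 0 1
  low_all : ∀ (n : ℕ) (x : H), min (1 / (1 + ε)) (c n) * ‖x‖ ≤ ‖(T ^ n) x‖

end defs

/-- the sequence has positive upper limit -/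
def LimsupPos (c : ℕ → ℝ) : Prop := ∃ δ : ℝ, 0 < δ ∧ ∃ᶠ n in atTop, δ ≤ c n

/-- **Dichotomy for singular unitary asymptotes.** Under a lower growth condition on the orbits
the question whether power bounded operators of class `C_11` are similar to contractions has a
positive answer if `limsup c > 0`, and a negative answer if `limsup c ≤ 0`, and then even for small
compact perturbations of unitary operators which are quasi-similar to a singular unitary
operator. -/
theorem result (ε : ℝ) (hε : 0 < ε) (c : ℕ → ℝ) : List.TFAE [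
    LimsupPos c,
    ∀ (H : Type) [NormedAddCommGroup H] [InnerProductSpace ℂ H] [CompleteSpace H]
      (T : H →L[ℂ] H), Cls ε c T → SimilarToUnitary T,
    ∀ (H : Type) [NormedAddCommGroup H] [InnerProductSpace ℂ H] [CompleteSpace H]
      (T : H →L[ℂ] H), Sing ε c T → SimilarToContraction T] := by
  have key := Pool.Agent.Work.MP_ebd05c_an.SG.main ε hε c
  have k12 := key.out 0 1
  have k31 := key.out 2 0
  tfae_have 1 → 2 := by
    intro h H _ _ _ T hT
    exact k12.1 h H T ⟨hT.c11, hT.pow_le, hT.low⟩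
  tfae_have 2 → 3 := by
    intro h H _ _ _ T hT
    exact Pool.Agent.Work.MP_ebd05c_an.H.SimilarToUnitary.contraction (h H T hT.cls)
  tfae_have 3 → 1 := by
    intro h
    refine k31.1 ?_
    intro H _ _ _ T hT hW
    exact h H T ⟨⟨hT.cls.c11, hT.cls.pow_le, hT.cls.low⟩, hW, hT.sep, hT.pert, hT.spec, hT.low_all⟩
  tfae_finish

end Pool.Agent.Results.MP_ebd05c_an.SingularDichotomy
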